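import Pool.Agent.N445.UB.B8
import Pool.Agent.N753.SU.Cnt
import Pool.Agent.N753.SU.Od
import Pool.Agent.N73.SU.SU_RM
import Pool.Agent.N222.SU_OM
import Pool.Agent.N348.SU_UZM
import Pool.Agent.N199.SU_B
import Pool.Agent.N123.OD1
import Pool.Agent.N692.SU.OD2
import Pool.Agent.N478.SU.OD3

/-!
# Vojta's conjecture with truncated counting function on `ℙ¹ × ℙ¹`: one exceptional set for all
# divisors, of density zero in all boxes and for all ample heights

Let `K` be a number field. A reduced effective divisor `D` of `X = ℙ¹ × ℙ¹` over `K` is the sum of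
finitely many prime divisors `F_j = 0` (`F_j` an irreducible polynomial in `x_0, x_1` over `K`, of
bidegree `(a_j, b_j)`) and of some of the divisors `x_i = ∞`. No condition is put on the
singularities and the intersections.

There is ONE set `E` of points `x = (x_0, x_1)` over `K` with the following properties. For all
`H₀, H₁ ≥ 0` it contains at most `2 exp (2 H₀ + 2 H₁ - √ max (H₀, H₁))` of the about
`exp (2 H₀ + 2 H₁)` points with `h(x_0) ≤ H₀`, `h(x_1) ≤ H₁`, whatever the shape of the box is;
it follows that it has density zero for each height `α h(x_0) + β h(x_1)`, `α, β > 0`. And for all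
`D`, all finite sets `S` of primes and all `ε > 0` there are a proper closed subset `Z` (finitely
many fibres of the two projections) and a constant `C` such that
`N^(1)_S(D, x) ≥ ∑ w_j(x) + ∑_{x_i = ∞ in D} h(x_i) - ε (h(x_0) + h(x_1)) - C`
for all `x` outside `E`, `Z` and `D`, where `w_j(x) = a_j h(x_0) + b_j h(x_1)` if `a_j + b_j ≤ 5`,
and otherwise `w_j(x)` is the minimum of this and of twice the maximum of the heights of those
coordinates on which `F_j` depends.

If all components of `D` have total degree `a_j + b_j ≤ 5`, then the lower bound is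
`h_D(x) - ε h_A(x) - C` (that is, it has the same leading term as the trivial upper bound), and the
inequality `N^(1)_S(D, x) ≥ h_{K_X + D}(x) - ε h_A(x) - C` of the conjecture holds even without
`K_X`. The inequality of the conjecture holds also if there is one component more, of bidegree
`(3, 3)`, `(2, 4)` or `(4, 2)`.
-/

set_option autoImplicit false

namespace Pool.Agent.Results.MP_542436_nt.AllBoxes

open NumberField IsDedekindDomain Height

/-- the local height at the prime `v` of the point `x`, relative to the divisor `F = 0` of `ℙ¹ × ℙ¹`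
(with respect to the closure of this divisor over the local ring of `v`): the logarithm of
`|F|_v ∏ max (1, |x_i|_v) ^ d_i / |F(x)|_v`, where `|F|_v` is the maximum of the absolute values of
the coefficients and `d_i` is the degree of `F` in the variable `x_i` -/
noncomputable def localHeight {K : Type} [Field K] [NumberField K]
    (v : HeightOneSpectrum (𝓞 K)) (F : MvPolynomial (Fin 2) K) (x : Fin 2 → K) : ℝ :=
  Real.log (⨆ s : F.support, FinitePlace.mk v (F.coeff s)) +
    ∑ i, (F.degreeOf i : ℝ) * Real.log (max 1 (FinitePlace.mk v (x i))) -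
      Real.log (FinitePlace.mk v (MvPolynomial.eval x F))

/-- the truncated counting function `N^(1)_S(D, x)` of the sum `D` of the divisors `F_j = 0` and of
the divisors `x_i = ∞` with `i ∈ I`: the sum over the primes `v ∉ S` of the minimum of `log N(v)`
and of the local height relative to `D` -/
noncomputable def counting {K : Type} [Field K] [NumberField K] {r : ℕ}
    (S : Set (HeightOneSpectrum (𝓞 K))) (F : Fin r → MvPolynomial (Fin 2) K) (I : Finset (Fin 2))
    (x : Fin 2 → K) : ℝ :=
  ∑ᶠ (v : HeightOneSpectrum (𝓞 K)) (_ : v ∉ S), min (Real.log (Ideal.absNorm v.asIdeal : ℝ))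
    (∑ j, localHeight v (F j) x + ∑ i ∈ I, Real.log (max 1 (FinitePlace.mk v (x i))))

/-- the degree `q_i` of `D` in the variable `x_i`: the bidegree of `D` is `(q_0, q_1)` -/
noncomputable def degree {K : Type} [Field K] {r : ℕ} (F : Fin r → MvPolynomial (Fin 2) K)
    (I : Finset (Fin 2)) (i : Fin 2) : ℕ :=
  ∑ j, (F j).degreeOf i + if i ∈ I then 1 else 0

/-- the lower bound `w_F(x)` for the contribution of the component `F = 0` of bidegree `(a, b)`:
`a h(x_0) + b h(x_1)` if `a + b ≤ 5`, and otherwise the minimum of this number and of twice the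
maximum of the heights of those coordinates on which `F` depends -/
noncomputable def weight {K : Type} [Field K] [NumberField K] (F : MvPolynomial (Fin 2) K)
    (x : Fin 2 → K) : ℝ :=
  if F.degreeOf 0 + F.degreeOf 1 ≤ 5 then
    F.degreeOf 0 * logHeight₁ (x 0) + F.degreeOf 1 * logHeight₁ (x 1)
  else min (F.degreeOf 0 * logHeight₁ (x 0) + F.degreeOf 1 * logHeight₁ (x 1))
    (2 * max (if F.degreeOf 0 = 0 then 0 else logHeight₁ (x 0))
      (if F.degreeOf 1 = 0 then 0 else logHeight₁ (x 1)))

/-- the component `F = 0` has total degree at most five -/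
def Small {K : Type} [Field K] (F : MvPolynomial (Fin 2) K) : Prop :=
  F.degreeOf 0 + F.degreeOf 1 ≤ 5

/-- the component `F = 0` has one of the bidegrees `(3, 3)`, `(2, 4)`, `(4, 2)` -/
def Six {K : Type} [Field K] (F : MvPolynomial (Fin 2) K) : Prop :=
  F.degreeOf 0 + F.degreeOf 1 = 6 ∧ 2 ≤ F.degreeOf 0 ∧ 2 ≤ F.degreeOf 1

open Pool.Agent.N753.SU in
theorem stmOD : StmOD :=
  Pool.Agent.N753.SU.stmOD (Pool.Agent.N692.SU.od2 Pool.Agent.N123.OD1.od1)
    Pool.Agent.N478.SU.stmOD3

open Pool.Agent.N753.SU in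
theorem stmLM : StmLM :=
  Pool.Agent.N753.SU.stmLM Pool.Agent.N348.SU.um Pool.Agent.N348.SU.zm Pool.Agent.N199.SU.stmB1
    Pool.Agent.N199.SU.stmB2 Pool.Agent.N199.SU.stmB3

theorem tools : Pool.Agent.N445.UB.Tools where
  rm := Pool.Agent.N73.SURM.stmRM
  um := Pool.Agent.N348.SU.um
  zm := Pool.Agent.N348.SU.zm
  lm := stmLM
  od := stmOD
  om := Pool.Agent.N222.SUOM.stmOM
  b4 := Pool.Agent.N199.SU.stmB4

open Pool.Agent.N753.SU Pool.Agent.N753.LS Pool.Agent.H691R3 Pool.Agent.N445.UB in
theorem TT_weight {K : Type} [Field K] [NumberField K] {r : ℕ}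
    (F : Fin r → MvPolynomial (Fin 2) K) (I : Finset (Fin 2)) (x : Fin 2 → K) :
    TT F I x = ∑ j, weight (F j) x + ∑ i ∈ I, logHeight₁ (x i) := by
  rw [TT_eq]
  congr 1
  · refine Finset.sum_congr rfl fun j _ => ?_
    unfold tc weight
    rw [hr_aff, hr_aff]
  · exact Finset.sum_congr rfl fun i _ => hr_aff (x i)

theorem weight_le {K : Type} [Field K] [NumberField K] (F : MvPolynomial (Fin 2) K)
    (x : Fin 2 → K) : weight F x ≤
      F.degreeOf 0 * logHeight₁ (x 0) + F.degreeOf 1 * logHeight₁ (x 1) := by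
  unfold weight
  split_ifs
  · exact le_rfl
  all_goals exact min_le_left _ _

theorem weight_small {K : Type} [Field K] [NumberField K] {F : MvPolynomial (Fin 2) K}
    (hF : Small F) (x : Fin 2 → K) : weight F x =
      F.degreeOf 0 * logHeight₁ (x 0) + F.degreeOf 1 * logHeight₁ (x 1) := by
  unfold weight
  rw [if_pos (show F.degreeOf 0 + F.degreeOf 1 ≤ 5 from hF)]

theorem weight_six {K : Type} [Field K] [NumberField K] {F : MvPolynomial (Fin 2) K}
    (hF : Six F) (x : Fin 2 → K) : F.degreeOf 0 * logHeight₁ (x 0) +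
      F.degreeOf 1 * logHeight₁ (x 1) - 2 * (logHeight₁ (x 0) + logHeight₁ (x 1)) ≤
        weight F x := by
  obtain ⟨h1, h2, h3⟩ := hF
  have hs : 0 ≤ logHeight₁ (x 0) := zero_le_logHeight₁ _
  have ht : 0 ≤ logHeight₁ (x 1) := zero_le_logHeight₁ _
  unfold weight
  rw [if_neg (by omega), if_neg (by omega), if_neg (by omega)]
  refine le_min (by linarith) ?_
  have h4 : (F.degreeOf 0 : ℝ) + F.degreeOf 1 = 6 := by exact_mod_cast h1
  have h5 : (2 : ℝ) ≤ F.degreeOf 0 := by exact_mod_cast h2
  have h6 : (2 : ℝ) ≤ F.degreeOf 1 := by exact_mod_cast h3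
  have h7 := mul_le_mul_of_nonneg_left (le_max_left (logHeight₁ (x 0)) (logHeight₁ (x 1)))
    (show 0 ≤ (F.degreeOf 0 : ℝ) - 2 by linarith)
  have h8 := mul_le_mul_of_nonneg_left (le_max_right (logHeight₁ (x 0)) (logHeight₁ (x 1)))
    (show 0 ≤ (F.degreeOf 1 : ℝ) - 2 by linarith)
  have h9 : ((F.degreeOf 0 : ℝ) - 2) * max (logHeight₁ (x 0)) (logHeight₁ (x 1)) +
      ((F.degreeOf 1 : ℝ) - 2) * max (logHeight₁ (x 0)) (logHeight₁ (x 1)) =
      2 * max (logHeight₁ (x 0)) (logHeight₁ (x 1)) := by
    rw [← add_mul]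
    congr 1
    linarith
  linarith

/-- the height relative to `D`, in terms of the components -/
theorem sum_degree {K : Type} [Field K] [NumberField K] {r : ℕ}
    (F : Fin r → MvPolynomial (Fin 2) K) (I : Finset (Fin 2)) (x : Fin 2 → K) :
    ∑ i, (degree F I i : ℝ) * logHeight₁ (x i) =
      ∑ j, ((F j).degreeOf 0 * logHeight₁ (x 0) + (F j).degreeOf 1 * logHeight₁ (x 1)) +
        ∑ i ∈ I, logHeight₁ (x i) := by
  have h1 : ∀ i, (degree F I i : ℝ) * logHeight₁ (x i) =
      ∑ j, (F j).degreeOf i * logHeight₁ (x i) + if i ∈ I then logHeight₁ (x i) else 0 := by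
    intro i
    unfold degree
    push_cast
    rw [add_mul, Finset.sum_mul]
    congr 1
    split_ifs <;> simp
  rw [Finset.sum_congr rfl fun i _ => h1 i, Finset.sum_add_distrib]
  congr 1
  · rw [Fin.sum_univ_two, ← Finset.sum_add_distrib]
  · rw [Finset.sum_ite_mem, Finset.univ_inter]

open Pool.Agent.N753.SU Pool.Agent.N753.LS Pool.Agent.H691R3 Pool.Agent.N445.UB in
/-- **One exceptional set for all divisors of `ℙ¹ × ℙ¹`, all boxes and all ample heights.** Let `K`
be a number field. There is a set `E` of points `x = (x_0, x_1)` over `K` with the following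
properties.
(1) `E` has at most `2 exp (2 H₀ + 2 H₁ - √ max (H₀, H₁))` points with `h(x_0) ≤ H₀` and
`h(x_1) ≤ H₁`, for all `H₀, H₁ ≥ 0`.
(2) `E` has at most `2 e² (H / α + 1) exp (θ H - √ (H / (α + β)))` points with
`α h(x_0) + β h(x_1) ≤ H`, where `θ = max (2 / α, 2 / β)`, for all `α, β > 0`, `H ≥ 0`.
(3) For all reduced effective divisors `D` of `ℙ¹ × ℙ¹` over `K`, all finite sets `S` of primes and
all `ε > 0` there are a finite set `Z` and a constant `C` such that
`∑ w_j(x) + ∑_{i ∈ I} h(x_i) - ε (h(x_0) + h(x_1)) ≤ N^(1)_S(D, x) + C`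
for all `x` outside `E` and off `D` with `x_0, x_1 ∉ Z`. If all components of `D` have total degree
at most five, then `∑ (q_i - ε) h(x_i) ≤ N^(1)_S(D, x) + C` for these `x`. If this is true for all
components but one, which has bidegree `(3, 3)`, `(2, 4)` or `(4, 2)`, then
`∑ (q_i - 2 - ε) h(x_i) ≤ N^(1)_S(D, x) + C` for these `x`.
(4) `N^(1)_S(D, x) ≤ ∑ q_i h(x_i) + C'` for all `x` off `D`. -/
theorem result (K : Type) [Field K] [NumberField K] :
    ∃ E : Set (Fin 2 → K),
      (∀ H₀ H₁ : ℝ, 0 ≤ H₀ → 0 ≤ H₁ →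
        {x | x ∈ E ∧ logHeight₁ (x 0) ≤ H₀ ∧ logHeight₁ (x 1) ≤ H₁}.Finite ∧
        ({x | x ∈ E ∧ logHeight₁ (x 0) ≤ H₀ ∧ logHeight₁ (x 1) ≤ H₁}.ncard : ℝ) ≤
          2 * Real.exp (2 * H₀ + 2 * H₁ - √(max H₀ H₁))) ∧
      (∀ α β H : ℝ, 0 < α → 0 < β → 0 ≤ H →
        {x | x ∈ E ∧ α * logHeight₁ (x 0) + β * logHeight₁ (x 1) ≤ H}.Finite ∧
        ({x | x ∈ E ∧ α * logHeight₁ (x 0) + β * logHeight₁ (x 1) ≤ H}.ncard : ℝ) ≤
          2 * Real.exp 2 * (H / α + 1) *
            Real.exp (max (2 / α) (2 / β) * H - √(H / (α + β)))) ∧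
      ∀ (r : ℕ) (F : Fin r → MvPolynomial (Fin 2) K) (I : Finset (Fin 2))
        (S : Set (HeightOneSpectrum (𝓞 K))), (∀ j, Irreducible (F j)) →
        (∀ j k, j ≠ k → ¬ Associated (F j) (F k)) → S.Finite →
        (∀ ε : ℝ, 0 < ε → ∃ (Z : Finset K) (C : ℝ), ∀ x : Fin 2 → K, x ∉ E → x 0 ∉ Z → x 1 ∉ Z →
          (∀ j, MvPolynomial.eval x (F j) ≠ 0) →
            ∑ j, weight (F j) x + ∑ i ∈ I, logHeight₁ (x i) -
                ε * (logHeight₁ (x 0) + logHeight₁ (x 1)) ≤ counting S F I x + C ∧
              ((∀ j, Small (F j)) →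
                ∑ i, ((degree F I i : ℝ) - ε) * logHeight₁ (x i) ≤ counting S F I x + C) ∧
              ((∃ k, Six (F k) ∧ ∀ j, j ≠ k → Small (F j)) →
                ∑ i, ((degree F I i : ℝ) - 2 - ε) * logHeight₁ (x i) ≤
                  counting S F I x + C)) ∧
        ∃ C : ℝ, ∀ x : Fin 2 → K, (∀ j, MvPolynomial.eval x (F j) ≠ 0) →
          counting S F I x ≤ ∑ i, (degree F I i : ℝ) * logHeight₁ (x i) + C := by
  classical
  have hh : ∀ z : K, hr (aff z) = logHeight₁ z := fun z => hr_aff z
  obtain ⟨E, hE, hmain⟩ := all_box K tools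
  refine ⟨E, ?_, ?_, ?_⟩
  · intro H₀ H₁ h0 h1
    have hset : {x : Fin 2 → K | x ∈ E ∧ logHeight₁ (x 0) ≤ H₀ ∧ logHeight₁ (x 1) ≤ H₁} =
        E ∩ bx2 K H₀ H₁ := by
      ext x
      unfold bx2
      simp only [hh]
      rfl
    rw [hset]
    exact ⟨(bx2_fin H₀ H₁).subset Set.inter_subset_right, hE H₀ H₁ h0 h1⟩
  · intro α β H hα hβ hH
    have h := ample hE hα hβ hH
    simp only [hh] at h
    exact h
  · intro r F I S hF hFF hS
    have hF0 : ∀ j, F j ≠ 0 := fun j => (hF j).ne_zero
    have hcount : ∀ x, counting S F I x = cnt1 S F I x := fun x => rfl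
    refine ⟨fun ε hε => ?_, ?_⟩
    · obtain ⟨C1, hC1, h1⟩ := cnt1_ge hS F hF0 I
      obtain ⟨Z, h0, h2⟩ := hmain r F I hF hFF ε hε
      obtain ⟨Q, hQ⟩ : ∃ Q : ℝ, Q = ∑ i, (degree F I i : ℝ) := ⟨_, rfl⟩
      have hQ0 : 0 ≤ Q := by
        rw [hQ]
        exact Finset.sum_nonneg fun i _ => Nat.cast_nonneg _
      refine ⟨Z, C1 + Q * max h0 0, ?_⟩
      intro x hxE hx0 hx1 hx
      have hs : 0 ≤ logHeight₁ (x 0) := zero_le_logHeight₁ _
      have ht : 0 ≤ logHeight₁ (x 1) := zero_le_logHeight₁ _
      have hle : ∀ i, logHeight₁ (x i) ≤ htm x := fun i => le_htm x i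
      have hm : htm x ≤ logHeight₁ (x 0) + logHeight₁ (x 1) := by
        refine htm_le two_pos fun i => ?_
        fin_cases i
        · exact le_add_of_nonneg_right ht
        · exact le_add_of_nonneg_left hs
      have hεm := mul_le_mul_of_nonneg_left hm hε.le
      have hsum := sum_degree F I x
      have hTT := TT_weight F I x
      have hwle : ∑ j, weight (F j) x ≤ ∑ j, ((F j).degreeOf 0 * logHeight₁ (x 0) +
          (F j).degreeOf 1 * logHeight₁ (x 1)) := Finset.sum_le_sum fun j _ => weight_le (F j) x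
      have hQm : 0 ≤ Q * max h0 0 := mul_nonneg hQ0 (le_max_right _ _)
      have hmainx : ∑ j, weight (F j) x + ∑ i ∈ I, logHeight₁ (x i) -
          ε * (logHeight₁ (x 0) + logHeight₁ (x 1)) ≤ counting S F I x + (C1 + Q * max h0 0) := by
        rw [hcount]
        by_cases hcase : h0 ≤ htm x
        · have h3 := h2 x hxE hx0 hx1 hcase hx
          have h4 := h1 x hx
          rw [hTT] at h3
          linarith
        · rw [not_le] at hcase
          have h3 : htm x ≤ max h0 0 := hcase.le.trans (le_max_left _ _)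
          have h5 := cnt1_nonneg S I hx
          have h6 : ∑ i, (degree F I i : ℝ) * logHeight₁ (x i) ≤ Q * max h0 0 := by
            rw [hQ, Finset.sum_mul]
            exact Finset.sum_le_sum fun i _ =>
              mul_le_mul_of_nonneg_left ((hle i).trans h3) (Nat.cast_nonneg _)
          have h7 : 0 ≤ ε * (logHeight₁ (x 0) + logHeight₁ (x 1)) := by positivity
          linarith
      refine ⟨hmainx, fun hsm => ?_, ?_⟩
      · have h3 : ∑ j, weight (F j) x = ∑ j, ((F j).degreeOf 0 * logHeight₁ (x 0) +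
          (F j).degreeOf 1 * logHeight₁ (x 1)) :=
          Finset.sum_congr rfl fun j _ => weight_small (hsm j) x
        have h4 : ∑ i, ((degree F I i : ℝ) - ε) * logHeight₁ (x i) =
            ∑ i, (degree F I i : ℝ) * logHeight₁ (x i) -
              ε * (logHeight₁ (x 0) + logHeight₁ (x 1)) := by
          rw [Fin.sum_univ_two, Fin.sum_univ_two]
          ring
        rw [h4]
        linarith
      · rintro ⟨k, hk, hsm⟩
        have h3 : ∑ j, ((F j).degreeOf 0 * logHeight₁ (x 0) +
            (F j).degreeOf 1 * logHeight₁ (x 1)) - 2 * (logHeight₁ (x 0) + logHeight₁ (x 1)) ≤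
              ∑ j, weight (F j) x := by
          rw [← Finset.add_sum_erase _ (fun j => ((F j).degreeOf 0 * logHeight₁ (x 0) +
              (F j).degreeOf 1 * logHeight₁ (x 1))) (Finset.mem_univ k),
            ← Finset.add_sum_erase _ (fun j => weight (F j) x) (Finset.mem_univ k)]
          have h5 := weight_six hk x
          have h6 : ∑ j ∈ Finset.univ.erase k, weight (F j) x =
              ∑ j ∈ Finset.univ.erase k, ((F j).degreeOf 0 * logHeight₁ (x 0) +
                (F j).degreeOf 1 * logHeight₁ (x 1)) :=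
            Finset.sum_congr rfl fun j hj => weight_small (hsm j (Finset.ne_of_mem_erase hj)) x
          rw [h6]
          linarith
        have h4 : ∑ i, ((degree F I i : ℝ) - 2 - ε) * logHeight₁ (x i) =
            ∑ i, (degree F I i : ℝ) * logHeight₁ (x i) -
              2 * (logHeight₁ (x 0) + logHeight₁ (x 1)) -
              ε * (logHeight₁ (x 0) + logHeight₁ (x 1)) := by
          rw [Fin.sum_univ_two, Fin.sum_univ_two]
          ring
        rw [h4]
        linarith
    · obtain ⟨C, hC⟩ := cnt1_le Pool.Agent.N348.SU.um S F hF0 I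
      refine ⟨C, fun x hx => ?_⟩
      have h1 := hC x hx
      simp only [hh] at h1
      exact h1

end Pool.Agent.Results.MP_542436_nt.AllBoxes
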