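import Pool.Agent.N578.TG.Pairs
import Pool.Agent.Results.MP_542436_nt.GridAlmostAllPoints

/-!
# Vojta's conjecture on `ℙ¹ × ℙ¹` near the values of multiplicative functions

The points `(P, Q)` of `ℙ¹ × ℙ¹`, of all heights, such that the conductors `exp N^(1)(a, P)` and `exp N^(1)(b, Q)`
are near the values `F₁(m₁)` and `F₂(m₂)` of two multiplicative functions, for example of Euler's function. For almost
all `(m₁, m₂)` ALL of them satisfy the inequality with truncated counting function.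
-/

set_option autoImplicit false

namespace Pool.Agent.Results.MP_542436_nt.MultiplicativeValues

open NumberField IsDedekindDomain
open Pool.Agent.N733.TG (LM)
open GridAlmostAllPoints (P1 height count countD biform)

variable {K : Type} [Field K] [NumberField K]

/-- `N^(1)_D(P, Q) ≥ (q - ε) h(P) + (r - ε) h(Q)` for every divisor `D`, of any bidegree `(q + e, r + f)`, which is the
sum of the fibres over the `a i` and the `b j` and of a curve which does not contain `(P, Q)` -/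
def VojtaForAllDivisors (S : Set (HeightOneSpectrum (𝓞 K))) {q r : ℕ} (a : Fin q → P1 K) (b : Fin r → P1 K)
    (ε : ℝ) (P Q : P1 K) : Prop :=
  ∀ (e f : ℕ) (c : Fin (e + 1) → Fin (f + 1) → K), biform c P.rep Q.rep ≠ 0 →
    ((q : ℝ) - ε) * height P + ((r : ℝ) - ε) * height Q ≤ countD S a b c P Q

/-- the points off the fibres for which this fails -/
def Bad (S : Set (HeightOneSpectrum (𝓞 K))) {q r : ℕ} (a : Fin q → P1 K) (b : Fin r → P1 K) (ε : ℝ) :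
    Set (P1 K × P1 K) :=
  {z | (∀ i, z.1 ≠ a i) ∧ (∀ j, z.2 ≠ b j) ∧ ¬ VojtaForAllDivisors S a b ε z.1 z.2}

theorem bad_eq (S : Set (HeightOneSpectrum (𝓞 K))) {q r : ℕ} (a : Fin q → P1 K) (b : Fin r → P1 K) (ε : ℝ)
    {X : ℝ} (hX : 0 < X) :
    {z | z ∈ Bad S a b ε ∧ Real.exp (count S a z.1) ≤ X ∧ Real.exp (count S b z.2) ≤ X} =
      GridAlmostAllPoints.Exceptions S a b ε X X := by
  ext z
  simp only [Bad, GridAlmostAllPoints.Exceptions, GridAlmostAllPoints.Points, VojtaForAllDivisors,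
    Set.mem_ofPred_eq]
  have h1 : ∀ t : ℝ, Real.exp t ≤ X ↔ t ≤ Real.log X := fun t => by
    rw [← Real.le_log_iff_exp_le hX]
  rw [h1, h1]
  constructor
  · rintro ⟨⟨g1, g2, g3⟩, g4, g5⟩
    push Not at g3
    exact ⟨⟨g1, g2, g4, g5⟩, g3⟩
  · rintro ⟨⟨g1, g2, g4, g5⟩, g3⟩
    refine ⟨⟨g1, g2, ?_⟩, g4, g5⟩
    push Not
    exact g3

/-- Let `K` be a number field, `S` a finite set of primes, `q, r ≥ 3` and `a_1, …, a_q`, `b_1, …, b_r` different points of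
the projective line over `K`. (1) The number of the points `(P, Q)` off the fibres over the `a_i`, `b_j`, of all
heights, with `exp N^(1)(a, P) ≤ X` and `exp N^(1)(b, Q) ≤ Y` is `X^(2/q + o(1)) Y^(2/r + o(1))`. (2) For every `ε > 0` there is
`η > 0` such that for all functions `F_0`, `F_1` in the class `LM`, all `U` and all large `N`, for all pairs
`(m_0, m_1)`, `m_i ≤ N`, but `N² / (log N)^U`: ALL points `(P, Q)` off the fibres over `K` with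
`|exp N^(1)(a, P) - F_0(m_0)| ≤ F_0(m_0)^(1 - 2/q + η)` and `|exp N^(1)(b, Q) - F_1(m_1)| ≤ F_1(m_1)^(1 - 2/r + η)` satisfy
`N^(1)_D(P, Q) ≥ (q - ε) h(P) + (r - ε) h(Q)` for EVERY divisor `D`, of any bidegree, which contains the fibres but not
`(P, Q)`. (3) Euler's function and the sum of divisors are in the class `LM`. -/
theorem result (K : Type) [Field K] [NumberField K] (S : Set (HeightOneSpectrum (𝓞 K)))
    (hS : S.Finite) (q r : ℕ) (hq : 3 ≤ q) (hr : 3 ≤ r) (a : Fin q → P1 K) (b : Fin r → P1 K)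
    (ha : Function.Injective a) (hb : Function.Injective b) :
    (∀ δ : ℝ, 0 < δ → ∃ (C X₀ : ℝ), ∀ X Y : ℝ, 1 ≤ X → 1 ≤ Y →
      (({z : P1 K × P1 K | (∀ i, z.1 ≠ a i) ∧ (∀ j, z.2 ≠ b j) ∧ Real.exp (count S a z.1) ≤ X ∧
        Real.exp (count S b z.2) ≤ Y}.ncard : ℝ) ≤ C * (X ^ (2 / (q : ℝ) + δ) * Y ^ (2 / (r : ℝ) + δ))) ∧
      (X₀ ≤ X → X₀ ≤ Y → X ^ (2 / (q : ℝ) - δ) * Y ^ (2 / (r : ℝ) - δ) ≤
        ({z : P1 K × P1 K | (∀ i, z.1 ≠ a i) ∧ (∀ j, z.2 ≠ b j) ∧ Real.exp (count S a z.1) ≤ X ∧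
        Real.exp (count S b z.2) ≤ Y}.ncard : ℝ))) ∧
    (∀ ε : ℝ, 0 < ε → ∃ η : ℝ, 0 < η ∧ ∀ F : Fin 2 → ℕ → ℕ, (∀ i, LM (F i)) → ∀ U : ℕ, ∃ N₀ : ℕ, ∀ N : ℕ, N₀ ≤ N →
      ({m : Fin 2 → ℕ | (∀ i, 1 ≤ m i ∧ m i ≤ N) ∧ ¬ ∀ P Q : P1 K, (∀ i, P ≠ a i) → (∀ j, Q ≠ b j) →
        |Real.exp (count S a P) - F 0 (m 0)| ≤ (F 0 (m 0) : ℝ) ^ (1 - 2 / (q : ℝ) + η) →
        |Real.exp (count S b Q) - F 1 (m 1)| ≤ (F 1 (m 1) : ℝ) ^ (1 - 2 / (r : ℝ) + η) →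
          VojtaForAllDivisors S a b ε P Q}.ncard : ℝ) ≤ (N : ℝ) ^ 2 / Real.log N ^ U) ∧
    LM Nat.totient ∧ LM (fun m => ∑ d ∈ m.divisors, d) := by
  obtain ⟨hcount, hexc⟩ := GridAlmostAllPoints.result K S hS q r hq hr a b ha hb
  have hpts : ∀ X Y : ℝ, 0 < X → 0 < Y → {z : P1 K × P1 K | (∀ i, z.1 ≠ a i) ∧ (∀ j, z.2 ≠ b j) ∧
      Real.exp (count S a z.1) ≤ X ∧ Real.exp (count S b z.2) ≤ Y} = GridAlmostAllPoints.Points S a b X Y := by
    intro X Y hX hY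
    ext z
    simp only [GridAlmostAllPoints.Points, Set.mem_ofPred_eq]
    rw [← Real.le_log_iff_exp_le hX, ← Real.le_log_iff_exp_le hY]
  refine ⟨?_, ?_, Pool.Agent.N733.TG.lm_totient, Pool.Agent.N733.TG.lm_sigma⟩
  · intro δ hδ
    obtain ⟨⟨C, hC⟩, ⟨X₀, hX₀⟩⟩ := hcount δ hδ
    refine ⟨C, X₀, fun X Y hX hY => ?_⟩
    rw [hpts X Y (by linarith) (by linarith)]
    exact ⟨(hC X Y hX hY).2, hX₀ X Y⟩
  · intro ε hε
    obtain ⟨ν, X₀, hν, hX₀⟩ := hexc ε hε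
    have hqr : (3 : ℝ) ≤ q := by exact_mod_cast hq
    have hrr : (3 : ℝ) ≤ r := by exact_mod_cast hr
    have hq0 : (0 : ℝ) < 2 / q := by positivity
    have hr0 : (0 : ℝ) < 2 / r := by positivity
    have hq1 : 2 / (q : ℝ) ≤ 1 := by rw [div_le_one (by linarith)]; linarith
    have hr1 : 2 / (r : ℝ) ≤ 1 := by rw [div_le_one (by linarith)]; linarith
    obtain ⟨ν₁, hν₁⟩ : ∃ ν₁ : ℝ, ν₁ = min ν (min (2 / (q : ℝ)) (2 / (r : ℝ))) := ⟨_, rfl⟩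
    have hν₁0 : 0 < ν₁ := by rw [hν₁]; exact lt_min hν (lt_min hq0 hr0)
    have hν₁ν : ν₁ ≤ ν := by rw [hν₁]; exact min_le_left _ _
    have hν₁q : ν₁ ≤ 2 / (q : ℝ) := by rw [hν₁]; exact (min_le_right _ _).trans (min_le_left _ _)
    have hν₁r : ν₁ ≤ 2 / (r : ℝ) := by rw [hν₁]; exact (min_le_right _ _).trans (min_le_right _ _)
    obtain ⟨⟨C, hC⟩, -⟩ := hcount (ν₁ / 8) (by positivity)
    obtain ⟨ρ, hρ⟩ : ∃ ρ : ℝ, ρ = 2 / (q : ℝ) + 2 / (r : ℝ) + ν₁ / 4 - ν₁ := ⟨_, rfl⟩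
    have hρ0 : 0 ≤ ρ := by rw [hρ]; linarith
    obtain ⟨B, hB⟩ : ∃ B : ℝ, B = max X₀ 1 := ⟨_, rfl⟩
    have hB1 : 1 ≤ B := by rw [hB]; exact le_max_right _ _
    have hBX : X₀ ≤ B := by rw [hB]; exact le_max_left _ _
    have hC0 : 0 ≤ C := by
      have h1 := (hC 1 1 le_rfl le_rfl).2
      rw [Real.one_rpow, Real.one_rpow, mul_one, mul_one] at h1
      exact (Nat.cast_nonneg _).trans h1
    refine ⟨ν₁ / 8, by positivity, fun F hF U => ?_⟩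
    obtain ⟨N₀, hN₀⟩ := Pool.Agent.N578.TG.keep_pairs (Bad S a b ε) (fun z => Real.exp (count S a z.1))
      (fun z => Real.exp (count S b z.2)) (ρ := ρ) (κ₁ := 1 - 2 / (q : ℝ) + ν₁ / 8) (κ₂ := 1 - 2 / (r : ℝ) + ν₁ / 8) hρ0
      (by linarith) (by linarith) (by linarith) (by linarith) (by rw [hρ]; linarith) (C * B ^ ρ) (fun X hX => by
        obtain ⟨Z, hZ⟩ : ∃ Z : ℝ, Z = B * X := ⟨_, rfl⟩
        have hZX : X ≤ Z := by rw [hZ]; nlinarith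
        have hZB : B ≤ Z := by rw [hZ]; nlinarith
        have hZ1 : 1 ≤ Z := hX.trans hZX
        obtain ⟨k1, k2⟩ := hC Z Z hZ1 hZ1
        have hfinZ : {z | z ∈ Bad S a b ε ∧ Real.exp (count S a z.1) ≤ Z ∧ Real.exp (count S b z.2) ≤ Z}.Finite := by
          rw [bad_eq S a b ε (by linarith : 0 < Z)]
          exact k1.subset (fun z hz => hz.1)
        have hsub : {z | z ∈ Bad S a b ε ∧ Real.exp (count S a z.1) ≤ X ∧ Real.exp (count S b z.2) ≤ X} ⊆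
            {z | z ∈ Bad S a b ε ∧ Real.exp (count S a z.1) ≤ Z ∧ Real.exp (count S b z.2) ≤ Z} := by
          rintro z ⟨g1, g2, g3⟩
          exact ⟨g1, g2.trans hZX, g3.trans hZX⟩
        refine ⟨hfinZ.subset hsub, ?_⟩
        have h1 : ({z | z ∈ Bad S a b ε ∧ Real.exp (count S a z.1) ≤ X ∧ Real.exp (count S b z.2) ≤ X}.ncard : ℝ) ≤
            ({z | z ∈ Bad S a b ε ∧ Real.exp (count S a z.1) ≤ Z ∧ Real.exp (count S b z.2) ≤ Z}.ncard : ℝ) := by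
          exact_mod_cast Set.ncard_le_ncard hsub hfinZ
        refine h1.trans ?_
        rw [bad_eq S a b ε (by linarith : 0 < Z)]
        have h2 := hX₀ Z Z (hBX.trans hZB) (hBX.trans hZB)
        rw [min_self] at h2
        have h3 : Z ^ (-ν) ≤ Z ^ (-ν₁) := Real.rpow_le_rpow_of_exponent_le hZ1 (by linarith)
        calc ((GridAlmostAllPoints.Exceptions S a b ε Z Z).ncard : ℝ)
            ≤ Z ^ (-ν) * ((GridAlmostAllPoints.Points S a b Z Z).ncard : ℝ) := h2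
          _ ≤ Z ^ (-ν₁) * (C * (Z ^ (2 / (q : ℝ) + ν₁ / 8) * Z ^ (2 / (r : ℝ) + ν₁ / 8))) :=
              mul_le_mul h3 k2 (Nat.cast_nonneg _) (by positivity)
          _ = C * (Z ^ (-ν₁) * (Z ^ (2 / (q : ℝ) + ν₁ / 8) * Z ^ (2 / (r : ℝ) + ν₁ / 8))) := by ring
          _ = C * Z ^ ρ := by
              rw [← Real.rpow_add (by linarith), ← Real.rpow_add (by linarith), hρ]
              congr 2
              ring
          _ = C * B ^ ρ * X ^ ρ := by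
              rw [hZ, Real.mul_rpow (by linarith) (by linarith)]
              ring) hF U
    refine ⟨N₀, fun N hN => le_trans ?_ (hN₀ N hN)⟩
    have hfin : {m : Fin 2 → ℕ | (∀ i, 1 ≤ m i ∧ m i ≤ N) ∧ ¬ ∀ z ∈ Bad S a b ε,
        |Real.exp (count S a z.1) - F 0 (m 0)| ≤ (F 0 (m 0) : ℝ) ^ (1 - 2 / (q : ℝ) + ν₁ / 8) →
        ¬ |Real.exp (count S b z.2) - F 1 (m 1)| ≤ (F 1 (m 1) : ℝ) ^ (1 - 2 / (r : ℝ) + ν₁ / 8)}.Finite := by
      refine (Set.Finite.pi' (fun _ : Fin 2 => Set.finite_Icc 1 N)).subset ?_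
      intro m hm i
      exact hm.1 i
    have hsub : {m : Fin 2 → ℕ | (∀ i, 1 ≤ m i ∧ m i ≤ N) ∧ ¬ ∀ P Q : P1 K, (∀ i, P ≠ a i) → (∀ j, Q ≠ b j) →
        |Real.exp (count S a P) - F 0 (m 0)| ≤ (F 0 (m 0) : ℝ) ^ (1 - 2 / (q : ℝ) + ν₁ / 8) →
        |Real.exp (count S b Q) - F 1 (m 1)| ≤ (F 1 (m 1) : ℝ) ^ (1 - 2 / (r : ℝ) + ν₁ / 8) →
          VojtaForAllDivisors S a b ε P Q} ⊆
        {m : Fin 2 → ℕ | (∀ i, 1 ≤ m i ∧ m i ≤ N) ∧ ¬ ∀ z ∈ Bad S a b ε,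
        |Real.exp (count S a z.1) - F 0 (m 0)| ≤ (F 0 (m 0) : ℝ) ^ (1 - 2 / (q : ℝ) + ν₁ / 8) →
        ¬ |Real.exp (count S b z.2) - F 1 (m 1)| ≤ (F 1 (m 1) : ℝ) ^ (1 - 2 / (r : ℝ) + ν₁ / 8)} := by
      rintro m ⟨h1, h2⟩
      refine ⟨h1, fun h3 => h2 fun P Q hP hQ h4 h5 => ?_⟩
      by_contra h6
      exact h3 (P, Q) ⟨hP, hQ, h6⟩ h4 h5
    exact_mod_cast Set.ncard_le_ncard hsub hfin

end Pool.Agent.Results.MP_542436_nt.MultiplicativeValues
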