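import Pool.Agent.N746.GR.Any

set_option autoImplicit false

/-!
# The truncated Vojta conjecture on `ℙ¹ × ℙ¹` for product divisors

A reduced divisor `E` on `ℙ¹` over `K` consists of the zeros of a squarefree `P ∈ K[X]`, together
with the point `∞` if `e = 1` (and without `∞` if `e = 0`). For two such divisors `E = (P, e)` and
`E' = (Q, e')` let `D = E × ℙ¹ + ℙ¹ × E'`, a normal crossings divisor of bidegree
`(deg P + e, deg Q + e')`.
-/

namespace Pool.Agent.Results.MP_542436_nt.OneGridForAllProducts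

open NumberField IsDedekindDomain Polynomial

variable {K : Type} [Field K] [NumberField K]

/-- The local height of `D` at the prime `v` of the point `([x : 1], [y : 1])`. -/
noncomputable def localHeight (P Q : K[X]) (e e' : ℕ) (v : HeightOneSpectrum (𝓞 K)) (x y : K) : ℝ :=
  -Real.log (FinitePlace.mk v (P.eval x * Q.eval y) /
    (max (FinitePlace.mk v x) 1 ^ (P.natDegree + e) *
      max (FinitePlace.mk v y) 1 ^ (Q.natDegree + e')))

/-- The truncated counting function of `D`, a sum over all primes of `K`. -/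
noncomputable def counting (P Q : K[X]) (e e' : ℕ) (x y : K) : ℝ :=
  ∑ᶠ v : HeightOneSpectrum (𝓞 K),
    min (Real.log (Ideal.absNorm v.asIdeal : ℝ)) (localHeight P Q e e' v x y)

/-- `H_D(α, β) = (q - 2) h_K(α) + (r - 2) h_K(β)` where `(q, r)` is the bidegree of `D` and `h_K`
is the logarithmic height relative to `K`. -/
noncomputable def heightD (P Q : K[X]) (e e' : ℕ) (x y : K) : ℝ :=
  ((P.natDegree : ℝ) + e - 2) * Height.logHeight₁ x +
    ((Q.natDegree : ℝ) + e' - 2) * Height.logHeight₁ y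

/-- The assertion of Q1 for the divisor `D`: for each `ε > 0` there is a proper closed subset `Z`
(the zeros of `G` and the two fibres at infinity) such that for each `C` only finitely many points
off `D` and off `Z` satisfy `N^(1)_D < H_D - ε (h(x) + h(y)) - C`, `h = h_K / [K : ℚ]`. -/
def Q1For (P Q : K[X]) (e e' : ℕ) : Prop :=
  ∀ ε : ℝ, 0 < ε → ∃ G : MvPolynomial (Fin 2) K, G ≠ 0 ∧ ∀ C : ℝ,
    {p : K × K | P.eval p.1 ≠ 0 ∧ Q.eval p.2 ≠ 0 ∧ MvPolynomial.eval ![p.1, p.2] G ≠ 0 ∧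
      counting P Q e e' p.1 p.2 < heightD P Q e e' p.1 p.2 -
        ε * (Height.logHeight₁ p.1 / Module.finrank ℚ K +
          Height.logHeight₁ p.2 / Module.finrank ℚ K) - C}.Finite

open Pool.Agent.N746.GR Pool.Agent.N757.RD

theorem counting_eq {P Q : K[X]} {e e' : ℕ} {x y : K} (hx : P.eval x ≠ 0) (hy : Q.eval y ≠ 0) :
    counting P Q e e' x y = cnt P Q e e' x y := by
  unfold counting cnt localHeight
  refine finsum_congr fun v => ?_
  rw [lam_add v hx hy]

theorem q1For_iff {P Q : K[X]} (hP : P ≠ 0) (hQ : Q ≠ 0) (e e' : ℕ) :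
    Q1For P Q e e' ↔ VV (dE P e) (dE Q e') := by
  have hd : (0 : ℝ) < Module.finrank ℚ K := by exact_mod_cast Module.finrank_pos
  obtain ⟨C₀, hC₀, hclose⟩ := cnt_close hP hQ e e'
  constructor
  · intro h ε hε
    obtain ⟨G, hG, hfin⟩ := h (ε * Module.finrank ℚ K) (by positivity)
    have h1 := hfin 0
    obtain ⟨C₁, hC₁⟩ := (h1.image fun p : K × K => heightD P Q e e' p.1 p.2 -
      W ((dE P e).S p.1 ∪ (dE Q e').S p.2) - ε * (D p.1 + D p.2)).bddAbove
    refine ⟨G, hG, max C₀ C₁, fun x y hx hy hxy => ?_⟩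
    have e1 : ε * Module.finrank ℚ K * (Height.logHeight₁ x / Module.finrank ℚ K +
        Height.logHeight₁ y / Module.finrank ℚ K) = ε * (D x + D y) := by
      field_simp
    change heightD P Q e e' x y ≤ _
    by_cases hbad : counting P Q e e' x y < heightD P Q e e' x y -
        ε * Module.finrank ℚ K * (Height.logHeight₁ x / Module.finrank ℚ K +
          Height.logHeight₁ y / Module.finrank ℚ K) - 0
    · have h2 := hC₁ ⟨(x, y), ⟨hx, hy, hxy, hbad⟩, rfl⟩
      simp only at h2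
      have h3 := le_max_right C₀ C₁
      linarith
    · rw [not_lt, e1, counting_eq hx hy] at hbad
      have h2 := (abs_le.1 (hclose x y hx hy)).2
      have h3 := le_max_left C₀ C₁
      linarith
  · intro h ε hε
    obtain ⟨G, hG, C₁, h1⟩ := h (ε / Module.finrank ℚ K / 2) (by positivity)
    refine ⟨G, hG, fun C => ?_⟩
    obtain ⟨M, hM⟩ : ∃ M : ℝ, M = (C₀ + C₁ - C) / (ε / Module.finrank ℚ K / 2) := ⟨_, rfl⟩
    refine ((D_finite M).prod (D_finite M)).subset ?_
    rintro ⟨x, y⟩ ⟨hx, hy, hxy, hlt⟩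
    simp only at hx hy hxy hlt
    have h2 := h1 x y hx hy hxy
    change heightD P Q e e' x y ≤ _ at h2
    rw [counting_eq hx hy] at hlt
    have h3 := (abs_le.1 (hclose x y hx hy)).1
    have e1 : ε * (Height.logHeight₁ x / Module.finrank ℚ K +
        Height.logHeight₁ y / Module.finrank ℚ K) =
        2 * (ε / Module.finrank ℚ K / 2 * (D x + D y)) := by
      field_simp
    rw [e1] at hlt
    have h4 : ε / Module.finrank ℚ K / 2 * (D x + D y) ≤ C₀ + C₁ - C := by linarith
    have h5 : D x + D y ≤ M := by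
      rw [hM, le_div_iff₀ (by positivity)]
      linarith
    have h6 := D_nonneg x
    have h7 := D_nonneg y
    exact ⟨(by linarith : D x ≤ M), (by linarith : D y ≤ M)⟩

/-- **Q1 for one product divisor implies Q1 for all product divisors.**

Let `K` be a number field and `D = E × ℙ¹ + ℙ¹ × E'` where `E = (P, 1)` contains `∞` and all `x` with
`(x - c) ^ n = m z ^ n`, and `E' = (Q, 1)` contains `∞` and all `y` with
`(y - c') ^ n' = m' z' ^ n'`; here `n, n' ≥ 2`, `m, m'` are integers, `z, z' ∈ K` are not zero, and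
`n ∣ m - 1`, or `n` is a prime which does not divide `m` (and likewise for `n'`, `m'`). If Q1 holds
for this one divisor `D` over `K`, then it holds over `K` for all `D = E₁ × ℙ¹ + ℙ¹ × E₂`, where
`E₁`, `E₂` are any reduced divisors on `ℙ¹` over `K`. -/
theorem result (K : Type) [Field K] [NumberField K] (P Q : K[X]) (hP : P ≠ 0) (hQ : Q ≠ 0)
    (n n' : ℕ) (hn : 2 ≤ n) (hn' : 2 ≤ n') (m m' : ℤ)
    (hm : (n : ℤ) ∣ m - 1 ∨ (n.Prime ∧ ¬ (n : ℤ) ∣ m))
    (hm' : (n' : ℤ) ∣ m' - 1 ∨ (n'.Prime ∧ ¬ (n' : ℤ) ∣ m'))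
    (z z' c c' : K) (hz : z ≠ 0) (hz' : z' ≠ 0)
    (hdP : (X - C c) ^ n - C ((m : K) * z ^ n) ∣ P)
    (hdQ : (X - C c') ^ n' - C ((m' : K) * z' ^ n') ∣ Q)
    (h : Q1For P Q 1 1) (P₁ P₂ : K[X]) (h₁ : Squarefree P₁) (h₂ : Squarefree P₂) (e₁ e₂ : ℕ)
    (he₁ : e₁ ≤ 1) (he₂ : e₂ ≤ 1) : Q1For P₁ P₂ e₁ e₂ := by
  rw [q1For_iff hP hQ] at h
  rw [q1For_iff h₁.ne_zero h₂.ne_zero]
  exact VV_grid h₁ h₂ he₁ he₂ (VV_back hn hn' hm hm' hz hz' c c' hP hQ hdP hdQ h)

end Pool.Agent.Results.MP_542436_nt.OneGridForAllProducts
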