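import Pool.Agent.N760.IT.D
import Pool.Agent.Results.MP_542436_nt.MultiplicativeValues

/-!
# Vojta's conjecture on `ℙ¹ × ℙ¹` near the members of almost all orbits of Euler's function

The points `(P, Q)` of `ℙ¹ × ℙ¹`, of all heights, such that the larger one of the conductors `exp N^(1)(a, P)` and
`exp N^(1)(b, Q)` is near a number `G v`, where `v = f(φ_k(m))`, `φ_k` the `k`-th iterate of Euler's function, `φ_0(m) = m`.
For almost all `m` and all `k ≤ K(m)`, `K(m)` tending to infinity, ALL of them satisfy the inequality with truncated counting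
function for all divisors. The iterates of Euler's function are not multiplicative, their values form a thin set and are taken
with very large multiplicities, and so this does not follow from the number of the exceptional points.
-/

set_option autoImplicit false

namespace Pool.Agent.Results.MP_542436_nt.TotientOrbits

open NumberField IsDedekindDomain Filter
open Pool.Agent.N733.TG (LM Expanding lm_totient lm_sigma expanding_pow)
open Pool.Agent.N760.IT (orb lm_id orbit_windows')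
open Pool.Agent.N826.IT.Orb (AlmostAll almostAll_mono)
open GridAlmostAllPoints (P1 height count countD biform)
open MultiplicativeValues (VojtaForAllDivisors Bad bad_eq)

variable {K : Type} [Field K] [NumberField K]

/-- the number of the exceptional points, of all heights, for which the larger conductor is at most `X` -/
theorem bad_count (S : Set (HeightOneSpectrum (𝓞 K))) (hS : S.Finite) {q r : ℕ} (hq : 3 ≤ q) (hr : 3 ≤ r)
    (a : Fin q → P1 K) (b : Fin r → P1 K) (ha : Function.Injective a) (hb : Function.Injective b) (ε : ℝ) (hε : 0 < ε) :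
    ∃ ν C : ℝ, 0 < ν ∧ ν ≤ 2 / (q : ℝ) ∧ ∀ X : ℝ, 1 ≤ X →
      {z | z ∈ Bad S a b ε ∧ max (Real.exp (count S a z.1)) (Real.exp (count S b z.2)) ≤ X}.Finite ∧
      ({z | z ∈ Bad S a b ε ∧ max (Real.exp (count S a z.1)) (Real.exp (count S b z.2)) ≤ X}.ncard : ℝ) ≤
        C * X ^ (2 / (q : ℝ) + 2 / (r : ℝ) - ν) := by
  obtain ⟨hcount, hexc⟩ := GridAlmostAllPoints.result K S hS q r hq hr a b ha hb
  obtain ⟨ν, X₀, hν, hX₀⟩ := hexc ε hε
  have hqr : (3 : ℝ) ≤ q := by exact_mod_cast hq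
  have hrr : (3 : ℝ) ≤ r := by exact_mod_cast hr
  have hq0 : (0 : ℝ) < 2 / q := by positivity
  have hr0 : (0 : ℝ) < 2 / r := by positivity
  obtain ⟨ν₁, hν₁⟩ : ∃ ν₁ : ℝ, ν₁ = min ν (2 / (q : ℝ)) := ⟨_, rfl⟩
  have hν₁0 : 0 < ν₁ := by rw [hν₁]; exact lt_min hν hq0
  have hν₁ν : ν₁ ≤ ν := by rw [hν₁]; exact min_le_left _ _
  have hν₁q : ν₁ ≤ 2 / (q : ℝ) := by rw [hν₁]; exact min_le_right _ _
  obtain ⟨⟨C, hC⟩, -⟩ := hcount (ν₁ / 4) (by positivity)
  obtain ⟨ρ, hρ⟩ : ∃ ρ : ℝ, ρ = 2 / (q : ℝ) + 2 / (r : ℝ) - ν₁ / 2 := ⟨_, rfl⟩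
  have hρ0 : 0 ≤ ρ := by rw [hρ]; linarith
  obtain ⟨B, hB⟩ : ∃ B : ℝ, B = max X₀ 1 := ⟨_, rfl⟩
  have hB1 : 1 ≤ B := by rw [hB]; exact le_max_right _ _
  have hBX : X₀ ≤ B := by rw [hB]; exact le_max_left _ _
  have hC0 : 0 ≤ C := by
    have h1 := (hC 1 1 le_rfl le_rfl).2
    rw [Real.one_rpow, Real.one_rpow, mul_one, mul_one] at h1
    exact (Nat.cast_nonneg _).trans h1
  refine ⟨ν₁ / 2, C * B ^ ρ, by positivity, by linarith, fun X hX => ?_⟩
  rw [← hρ]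
  obtain ⟨Z, hZ⟩ : ∃ Z : ℝ, Z = B * X := ⟨_, rfl⟩
  have hZX : X ≤ Z := by rw [hZ]; nlinarith
  have hZB : B ≤ Z := by rw [hZ]; nlinarith
  have hZ1 : 1 ≤ Z := hX.trans hZX
  obtain ⟨k1, k2⟩ := hC Z Z hZ1 hZ1
  have hfinZ : {z | z ∈ Bad S a b ε ∧ Real.exp (count S a z.1) ≤ Z ∧ Real.exp (count S b z.2) ≤ Z}.Finite := by
    rw [bad_eq S a b ε (by linarith : 0 < Z)]
    exact k1.subset (fun z hz => hz.1)
  have hsub : {z | z ∈ Bad S a b ε ∧ max (Real.exp (count S a z.1)) (Real.exp (count S b z.2)) ≤ X} ⊆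
      {z | z ∈ Bad S a b ε ∧ Real.exp (count S a z.1) ≤ Z ∧ Real.exp (count S b z.2) ≤ Z} := by
    rintro z ⟨g1, g2⟩
    rw [max_le_iff] at g2
    exact ⟨g1, g2.1.trans hZX, g2.2.trans hZX⟩
  refine ⟨hfinZ.subset hsub, ?_⟩
  have h1 : ({z | z ∈ Bad S a b ε ∧ max (Real.exp (count S a z.1)) (Real.exp (count S b z.2)) ≤ X}.ncard : ℝ) ≤
      ({z | z ∈ Bad S a b ε ∧ Real.exp (count S a z.1) ≤ Z ∧ Real.exp (count S b z.2) ≤ Z}.ncard : ℝ) := by
    exact_mod_cast Set.ncard_le_ncard hsub hfinZ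
  refine h1.trans ?_
  rw [bad_eq S a b ε (by linarith : 0 < Z)]
  have h2 := hX₀ Z Z (hBX.trans hZB) (hBX.trans hZB)
  rw [min_self] at h2
  have h3 : Z ^ (-ν) ≤ Z ^ (-ν₁) := Real.rpow_le_rpow_of_exponent_le hZ1 (by linarith)
  calc ((GridAlmostAllPoints.Exceptions S a b ε Z Z).ncard : ℝ)
      ≤ Z ^ (-ν) * ((GridAlmostAllPoints.Points S a b Z Z).ncard : ℝ) := h2
    _ ≤ Z ^ (-ν₁) * (C * (Z ^ (2 / (q : ℝ) + ν₁ / 4) * Z ^ (2 / (r : ℝ) + ν₁ / 4))) :=
        mul_le_mul h3 k2 (Nat.cast_nonneg _) (by positivity)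
    _ = C * (Z ^ (-ν₁) * (Z ^ (2 / (q : ℝ) + ν₁ / 4) * Z ^ (2 / (r : ℝ) + ν₁ / 4))) := by ring
    _ = C * Z ^ ρ := by
        rw [← Real.rpow_add (by linarith), ← Real.rpow_add (by linarith), hρ]
        congr 2
        ring
    _ = C * B ^ ρ * X ^ ρ := by
        rw [hZ, Real.mul_rpow (by linarith) (by linarith)]
        ring

/-- `orb f k m` is `f(φ_k(m))`, `φ_k` the `k`-th iterate of Euler's function, `φ_0(m) = m`. Let `K` be a number field, `S` a
finite set of primes, `q, r ≥ 3` and `a_1, …, a_q`, `b_1, …, b_r` different points of the projective line over `K`.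
(1) The number of the points `(P, Q)` off the fibres over the `a_i`, `b_j`, of all heights, with `exp N^(1)(a, P) ≤ X` and
`exp N^(1)(b, Q) ≤ X` is `X^(2/q + 2/r + o(1))`. (2) For every `ε > 0` there is `ν > 0` such that for all functions `f` in the
class `LM`, all expanding `G` of order `d` and all `κ ≥ 0` with `d (2/q + 2/r - ν) + κ < 1` there is `K'(m)` tending to infinity
such that for almost all `m` (all `m ≤ N` but `o(N)`) and all `k ≤ K'(m)`, with `v = f(φ_k(m))`, ALL points `(P, Q)` off the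
fibres over `K` with `|max (exp N^(1)(a, P), exp N^(1)(b, Q)) - G v| ≤ v^κ` satisfy
`N^(1)_D(P, Q) ≥ (q - ε) h(P) + (r - ε) h(Q)` for EVERY divisor `D`, of any bidegree, which contains the fibres but not
`(P, Q)`. (3) The identity, Euler's function and the sum of divisors are in the class `LM`, and `α v^d` (`α > 0`, `d ≥ 1`)
is expanding of order `d`. -/
theorem result (K : Type) [Field K] [NumberField K] (S : Set (HeightOneSpectrum (𝓞 K)))
    (hS : S.Finite) (q r : ℕ) (hq : 3 ≤ q) (hr : 3 ≤ r) (a : Fin q → P1 K) (b : Fin r → P1 K)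
    (ha : Function.Injective a) (hb : Function.Injective b) :
    (∀ δ : ℝ, 0 < δ → ∃ (C X₀ : ℝ), ∀ X : ℝ, 1 ≤ X →
      (({z : P1 K × P1 K | (∀ i, z.1 ≠ a i) ∧ (∀ j, z.2 ≠ b j) ∧ Real.exp (count S a z.1) ≤ X ∧
        Real.exp (count S b z.2) ≤ X}.ncard : ℝ) ≤ C * X ^ (2 / (q : ℝ) + 2 / (r : ℝ) + δ)) ∧
      (X₀ ≤ X → X ^ (2 / (q : ℝ) + 2 / (r : ℝ) - δ) ≤
        ({z : P1 K × P1 K | (∀ i, z.1 ≠ a i) ∧ (∀ j, z.2 ≠ b j) ∧ Real.exp (count S a z.1) ≤ X ∧
        Real.exp (count S b z.2) ≤ X}.ncard : ℝ))) ∧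
    (∀ ε : ℝ, 0 < ε → ∃ ν : ℝ, 0 < ν ∧ ∀ f : ℕ → ℕ, LM f → ∀ (G : ℕ → ℝ) (d κ : ℝ), Expanding G d → 0 ≤ κ →
      d * (2 / (q : ℝ) + 2 / (r : ℝ) - ν) + κ < 1 → ∃ K' : ℕ → ℕ, Tendsto K' atTop atTop ∧
      AlmostAll (fun m => ∀ k ≤ K' m, ∀ P Q : P1 K, (∀ i, P ≠ a i) → (∀ j, Q ≠ b j) →
        |max (Real.exp (count S a P)) (Real.exp (count S b Q)) - G (orb f k m)| ≤ (orb f k m : ℝ) ^ κ →
          VojtaForAllDivisors S a b ε P Q)) ∧
    (LM (fun m => m) ∧ LM Nat.totient ∧ LM (fun m => ∑ d ∈ m.divisors, d)) ∧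
    ∀ α d : ℝ, 0 < α → 1 ≤ d → Expanding (fun v => α * (v : ℝ) ^ d) d := by
  refine ⟨?_, ?_, ⟨lm_id, lm_totient, lm_sigma⟩, fun α d hα hd => expanding_pow hα hd⟩
  · intro δ hδ
    obtain ⟨C, X₀, h⟩ := (MultiplicativeValues.result K S hS q r hq hr a b ha hb).1 (δ / 2) (by linarith)
    refine ⟨C, X₀, fun X hX => ?_⟩
    obtain ⟨h1, h2⟩ := h X X hX hX
    have e1 : X ^ (2 / (q : ℝ) + δ / 2) * X ^ (2 / (r : ℝ) + δ / 2) = X ^ (2 / (q : ℝ) + 2 / (r : ℝ) + δ) := by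
      rw [← Real.rpow_add (by linarith)]
      congr 1
      ring
    have e2 : X ^ (2 / (q : ℝ) - δ / 2) * X ^ (2 / (r : ℝ) - δ / 2) = X ^ (2 / (q : ℝ) + 2 / (r : ℝ) - δ) := by
      rw [← Real.rpow_add (by linarith)]
      congr 1
      ring
    rw [e1] at h1
    rw [e2] at h2
    exact ⟨h1, fun h3 => h2 h3 h3⟩
  · intro ε hε
    obtain ⟨ν, C, hν, hνq, hcount⟩ := bad_count S hS hq hr a b ha hb ε hε
    have hr0 : (0 : ℝ) ≤ 2 / r := by positivity
    refine ⟨ν, hν, fun f hf G d κ hG hκ h1 => ?_⟩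
    obtain ⟨K', hK, hK2⟩ := orbit_windows' (Bad S a b ε)
      (fun z => max (Real.exp (count S a z.1)) (Real.exp (count S b z.2))) hf hG
      (s := 2 / (q : ℝ) + 2 / (r : ℝ) - ν) (κ := κ) (by linarith) hκ h1 ⟨C, hcount⟩
    refine ⟨K', hK, almostAll_mono hK2 (fun m hm k hk P Q hP hQ hw => ?_)⟩
    by_contra hcon
    exact hm k hk (P, Q) ⟨hP, hQ, hcon⟩ hw

end Pool.Agent.Results.MP_542436_nt.TotientOrbits
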